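import Mathlib

set_option autoImplicit false
open scoped Topology
open Filter Set

namespace Pool.Agent.H804R4

section general

variable {E F : Type*} [NormedAddCommGroup E] [NormedSpace ℂ E] [FiniteDimensional ℂ E]
  [NormedAddCommGroup F] [NormedSpace ℂ F] [FiniteDimensional ℂ F]

/-- rank of a continuous linear map -/
noncomputable def rk (T : E →L[ℂ] F) : ℕ := Module.finrank ℂ (LinearMap.range (T : E →ₗ[ℂ] F))

/-- kernel dimension -/
noncomputable def kd (T : E →L[ℂ] F) : ℕ := Module.finrank ℂ (LinearMap.ker (T : E →ₗ[ℂ] F))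

omit [FiniteDimensional ℂ F] in
theorem rk_add_kd (T : E →L[ℂ] F) : rk T + kd T = Module.finrank ℂ E :=
  LinearMap.finrank_range_add_finrank_ker (T : E →ₗ[ℂ] F)

/-- generalised inverse -/
theorem exists_genInv (D : E →L[ℂ] F) : ∃ P : F →L[ℂ] E, ∀ x, D (P (D x)) = D x := by
  obtain ⟨σ, hσ⟩ := LinearMap.exists_rightInverse_of_surjective
    ((D : E →ₗ[ℂ] F).rangeRestrict) (LinearMap.range_rangeRestrict _)
  obtain ⟨π, hπ⟩ := LinearMap.exists_leftInverse_of_injective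
    ((LinearMap.range (D : E →ₗ[ℂ] F)).subtype) (Submodule.ker_subtype _)
  refine ⟨LinearMap.toContinuousLinearMap (σ ∘ₗ π), fun x => ?_⟩
  have h1 : π (D x) = ((D : E →ₗ[ℂ] F).rangeRestrict x) := by
    have := LinearMap.congr_fun hπ ((D : E →ₗ[ℂ] F).rangeRestrict x)
    simpa using this
  have h2 := LinearMap.congr_fun hσ ((D : E →ₗ[ℂ] F).rangeRestrict x)
  have h3 : ((D : E →ₗ[ℂ] F).rangeRestrict (σ ((D : E →ₗ[ℂ] F).rangeRestrict x)) : F)
      = ((D : E →ₗ[ℂ] F).rangeRestrict x : F) := by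
    rw [← LinearMap.comp_apply, hσ]; rfl
  simp only [LinearMap.coe_toContinuousLinearMap', LinearMap.comp_apply, h1]
  simpa using h3

/-- the operator `A = 1 - P D₀ + P D₀ P D`. -/
noncomputable def opA (D₀ : E →L[ℂ] F) (P : F →L[ℂ] E) (D : E →L[ℂ] F) : E →L[ℂ] E :=
  ContinuousLinearMap.id ℂ E - P ∘L D₀ + (P ∘L D₀) ∘L (P ∘L D)

omit [FiniteDimensional ℂ E] [FiniteDimensional ℂ F] in
theorem opA_apply (D₀ : E →L[ℂ] F) (P : F →L[ℂ] E) (D : E →L[ℂ] F) (x : E) :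
    opA D₀ P D x = x - P (D₀ x) + P (D₀ (P (D x))) := rfl

omit [FiniteDimensional ℂ E] [FiniteDimensional ℂ F] in
theorem opA_self (D₀ : E →L[ℂ] F) (P : F →L[ℂ] E) (hP : ∀ x, D₀ (P (D₀ x)) = D₀ x) :
    opA D₀ P D₀ = 1 := by
  ext x
  simp [opA_apply, hP]

omit [FiniteDimensional ℂ F] in
theorem opA_main (D₀ : E →L[ℂ] F) (P : F →L[ℂ] E) (hP : ∀ x, D₀ (P (D₀ x)) = D₀ x)
    (D : E →L[ℂ] F) (hD : rk D ≤ rk D₀) (hinj : Function.Injective (opA D₀ P D)) :
    rk D = rk D₀ ∧ ∀ c, D₀ (opA D₀ P D c) = 0 → D c = 0 := by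
  set N : E →L[ℂ] E := (P ∘L D₀) ∘L (P ∘L D) with hN
  have hNapp : ∀ c, N c = P (D₀ (P (D c))) := fun c => rfl
  -- ker N ≤ ... dimension
  have hmap : ∀ c ∈ LinearMap.ker (N : E →ₗ[ℂ] E), opA D₀ P D c ∈ LinearMap.ker (D₀ : E →ₗ[ℂ] F) := by
    intro c hc
    have hc' : N c = 0 := hc
    rw [hNapp] at hc'
    change D₀ (opA D₀ P D c) = 0
    rw [opA_apply, hc', add_zero, map_sub, hP, sub_self]
  have hdim1 : kd N ≤ kd D₀ := by
    let f : LinearMap.ker (N : E →ₗ[ℂ] E) →ₗ[ℂ] LinearMap.ker (D₀ : E →ₗ[ℂ] F) :=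
      LinearMap.restrict (opA D₀ P D : E →ₗ[ℂ] E) hmap
    have hf : Function.Injective f := by
      intro a b hab
      have := congrArg Subtype.val hab
      exact Subtype.ext (hinj this)
    exact LinearMap.finrank_le_finrank_of_injective hf
  have hle : LinearMap.ker (D : E →ₗ[ℂ] F) ≤ LinearMap.ker (N : E →ₗ[ℂ] E) := by
    intro c hc
    have hc' : D c = 0 := hc
    change N c = 0
    rw [hNapp, hc']; simp
  have hdim2 : kd D ≤ kd N := Submodule.finrank_mono hle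
  have e1 := rk_add_kd D
  have e2 := rk_add_kd D₀
  have hkd : kd D = kd N := by omega
  have hrk : rk D = rk D₀ := by omega
  have heq : LinearMap.ker (D : E →ₗ[ℂ] F) = LinearMap.ker (N : E →ₗ[ℂ] E) :=
    Submodule.eq_of_le_of_finrank_eq hle hkd
  refine ⟨hrk, fun c hc => ?_⟩
  have : c ∈ LinearMap.ker (N : E →ₗ[ℂ] E) := by
    change N c = 0
    rw [hNapp]
    rw [opA_apply, map_add, map_sub, hP, sub_self, zero_add] at hc
    rw [hP] at hc
    rw [hc]; simp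
  rw [← heq] at this
  exact this

end general

end Pool.Agent.H804R4
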