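import Mathlib

set_option autoImplicit false
open scoped Topology
open Filter Set

namespace Pool.Agent.H804R4

variable {W : Type*} [NormedAddCommGroup W] [NormedSpace ℂ W] [FiniteDimensional ℂ W]

theorem prod_lower (s : Multiset ℂ) (c : ℝ) (hc : 0 ≤ c) (h : ∀ μ ∈ s, c ≤ ‖1 - μ‖) :
    c ^ (Multiset.card s) ≤ ‖(s.map (fun a => 1 - a)).prod‖ := by
  induction s using Multiset.induction_on with
  | empty => simp
  | cons a s ih =>
    rw [Multiset.map_cons, Multiset.prod_cons, norm_mul, Multiset.card_cons, pow_succ, mul_comm]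
    exact mul_le_mul (h a (Multiset.mem_cons_self a s))
      (ih (fun μ hμ => h μ (Multiset.mem_cons_of_mem hμ))) (by positivity) (norm_nonneg _)

theorem det_lower (f : W →ₗ[ℂ] W) (ρ : ℝ) (hρ : 0 < ρ) (hρ1 : ρ ≤ 1)
    (h : ∀ l : ℂ, ‖l - 1‖ < ρ → ∀ v, v + l • f v = 0 → v = 0) :
    (ρ / 2) ^ (Module.finrank ℂ W) ≤ ‖LinearMap.det (1 + f)‖ := by
  have hsp : ((-f).charpoly).Splits := IsAlgClosed.splits _
  have hmon : ((-f).charpoly).Monic := LinearMap.charpoly_monic _
  have e1 : ((-f).charpoly).eval 1 = LinearMap.det (1 + f) := by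
    rw [LinearMap.eval_charpoly, map_one, sub_neg_eq_add]
  rw [← e1, hsp.eval_eq_prod_roots_of_monic hmon]
  have hcard : Multiset.card ((-f).charpoly.roots) = Module.finrank ℂ W := by
    rw [← hsp.natDegree_eq_card_roots, LinearMap.charpoly_natDegree]
  rw [← hcard]
  refine prod_lower _ _ (by positivity) (fun μ hμ => ?_)
  have hroot : ((-f).charpoly).IsRoot μ := (Polynomial.mem_roots'.1 hμ).2
  have hev : Module.End.HasEigenvalue (-f : Module.End ℂ W) μ :=
    (Module.End.hasEigenvalue_iff_isRoot_charpoly _ _).2 hroot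
  obtain ⟨v, hv⟩ := hev.exists_hasEigenvector
  have hv0 : v ≠ 0 := hv.2
  have hfv : -(f v) = μ • v := hv.apply_eq_smul
  by_cases hsmall : ‖μ‖ < 1 / 2
  · have : 1 - ‖μ‖ ≤ ‖1 - μ‖ := by
      have := norm_sub_norm_le (1 : ℂ) μ
      simpa using this
    linarith
  · push Not at hsmall
    have hμ0 : μ ≠ 0 := by
      intro h0; rw [h0, norm_zero] at hsmall; linarith
    have hμp : 0 < ‖μ‖ := norm_pos_iff.2 hμ0
    have hge : ρ ≤ ‖μ⁻¹ - 1‖ := by
      by_contra hlt
      push Not at hlt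
      apply hv0
      apply h μ⁻¹ hlt
      have : f v = -(μ • v) := by rw [← hfv, neg_neg]
      rw [this, smul_neg, smul_smul, inv_mul_cancel₀ hμ0, one_smul, add_neg_cancel]
    have e2 : ‖μ‖ * ‖μ⁻¹ - 1‖ = ‖1 - μ‖ := by
      rw [← norm_mul]
      congr 1
      field_simp
    rw [← e2]
    nlinarith

end Pool.Agent.H804R4
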