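import Mathlib
import Pool.Agent.H804R4.Base

set_option autoImplicit false
open scoped Topology
open Filter Set

namespace Pool.Agent.H804R4

section general

variable {E F : Type*} [NormedAddCommGroup E] [NormedSpace ℂ E] [FiniteDimensional ℂ E]
  [NormedAddCommGroup F] [NormedSpace ℂ F] [FiniteDimensional ℂ F]

/-- The standing hypotheses: `Γ` analytic on the open set `Ω`, rank at most `k`, and level sets
through points of rank `k` are the affine spaces parallel to the kernel. -/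
structure Hyp (Ω : Set E) (Γ : E → F) (k : ℕ) : Prop where
  isOpen : IsOpen Ω
  an : AnalyticOnNhd ℂ Γ Ω
  le : ∀ x ∈ Ω, rk (fderiv ℂ Γ x) ≤ k
  lev : ∀ x ∈ Ω, rk (fderiv ℂ Γ x) = k → ∀ y ∈ Ω, (Γ y = Γ x ↔ fderiv ℂ Γ x (y - x) = 0)

variable {Ω : Set E} {Γ : E → F} {k : ℕ}

theorem analyticAt_det {G : E → (E →L[ℂ] E)} {x : E} (hG : AnalyticAt ℂ G x) :
    AnalyticAt ℂ (fun y => LinearMap.det (G y : E →ₗ[ℂ] E)) x := by
  classical
  let b := Module.finBasis ℂ E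
  have h1 : (fun y => LinearMap.det (G y : E →ₗ[ℂ] E)) =
      fun y => ∑ σ : Equiv.Perm (Fin (Module.finrank ℂ E)), Equiv.Perm.sign σ •
        ∏ i, (LinearMap.toContinuousLinearMap (b.coord (σ i))) (G y (b i)) := by
    funext y
    rw [← LinearMap.det_toMatrix b, Matrix.det_apply]
    refine Finset.sum_congr rfl (fun σ _ => ?_)
    congr 1
    refine Finset.prod_congr rfl (fun i _ => ?_)
    rw [LinearMap.toMatrix_apply]
    rfl
  rw [h1]
  refine Finset.analyticAt_fun_sum _ (fun σ _ => ?_)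
  have h2 : (fun y => Equiv.Perm.sign σ •
        ∏ i, (LinearMap.toContinuousLinearMap (b.coord (σ i))) (G y (b i))) =
      fun y => (((Equiv.Perm.sign σ : ℤ) : ℂ)) *
        ∏ i, (LinearMap.toContinuousLinearMap (b.coord (σ i))) (G y (b i)) := by
    funext y
    rw [Units.smul_def, zsmul_eq_mul]
  rw [h2]
  refine analyticAt_const.fun_mul ?_
  refine Finset.analyticAt_fun_prod _ (fun i _ => ?_)
  exact ((LinearMap.toContinuousLinearMap (b.coord (σ i))).analyticAt _).comp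
    (((ContinuousLinearMap.apply ℂ E (b i)).analyticAt _).comp hG)

omit [FiniteDimensional ℂ E] in
theorem opA_analyticAt (h : Hyp Ω Γ k) (D₀ : E →L[ℂ] F) (P : F →L[ℂ] E) {x : E} (hx : x ∈ Ω) :
    AnalyticAt ℂ (fun y => opA D₀ P (fderiv ℂ Γ y)) x := by
  unfold opA
  haveI := FiniteDimensional.complete ℂ F
  have h1 : AnalyticAt ℂ (fun y => fderiv ℂ Γ y) x := (h.an.fderiv x hx)
  refine AnalyticAt.fun_add analyticAt_const ?_
  have h2 : AnalyticAt ℂ (fun y => P ∘L (fderiv ℂ Γ y)) x :=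
    ((ContinuousLinearMap.compL ℂ E F E P).analyticAt _).comp h1
  exact ((ContinuousLinearMap.compL ℂ E E E (P ∘L D₀)).analyticAt _).comp h2

/-- a scalar analytic function detecting rank `k`. -/
theorem exists_detector (h : Hyp Ω Γ k) {x₀ : E} (hr : rk (fderiv ℂ Γ x₀) = k) :
    ∃ μ : E → ℂ, AnalyticOnNhd ℂ μ Ω ∧ μ x₀ ≠ 0 ∧ ∀ x ∈ Ω, μ x ≠ 0 → rk (fderiv ℂ Γ x) = k := by
  obtain ⟨P, hP⟩ := exists_genInv (fderiv ℂ Γ x₀)
  refine ⟨fun y => LinearMap.det (opA (fderiv ℂ Γ x₀) P (fderiv ℂ Γ y) : E →ₗ[ℂ] E),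
    fun x hx => analyticAt_det (opA_analyticAt h _ P hx), ?_, ?_⟩
  · simp only [opA_self _ P hP]
    have : ((1 : E →L[ℂ] E) : E →ₗ[ℂ] E) = LinearMap.id := rfl
    rw [this, LinearMap.det_id]
    exact one_ne_zero
  · intro x hx hdet
    have hu : IsUnit (opA (fderiv ℂ Γ x₀) P (fderiv ℂ Γ x) : E →ₗ[ℂ] E) :=
      (LinearMap.isUnit_iff_isUnit_det _).2 (isUnit_iff_ne_zero.2 hdet)
    have hinj : Function.Injective (opA (fderiv ℂ Γ x₀) P (fderiv ℂ Γ x)) := by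
      have := LinearMap.ker_eq_bot.1 ((LinearMap.isUnit_iff_ker_eq_bot _).1 hu)
      exact this
    rw [← hr]
    exact (opA_main _ P hP _ (by rw [hr]; exact h.le x hx) hinj).1

/-- analytic families of kernel vectors near a point of rank `k`. -/
theorem exists_family (h : Hyp Ω Γ k) {x₀ : E} (hx₀ : x₀ ∈ Ω) (hr : rk (fderiv ℂ Γ x₀) = k)
    {b : E} (hb : fderiv ℂ Γ x₀ b = 0) :
    ∃ β : E → E, AnalyticAt ℂ β x₀ ∧ β x₀ = b ∧
      ∀ᶠ x in 𝓝 x₀, x ∈ Ω ∧ rk (fderiv ℂ Γ x) = k ∧ fderiv ℂ Γ x (β x) = 0 := by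
  obtain ⟨P, hP⟩ := exists_genInv (fderiv ℂ Γ x₀)
  set A : E → (E →L[ℂ] E) := fun y => opA (fderiv ℂ Γ x₀) P (fderiv ℂ Γ y) with hA
  have hA0 : A x₀ = 1 := opA_self _ P hP
  have hAan : AnalyticAt ℂ A x₀ := opA_analyticAt h _ P hx₀
  refine ⟨fun y => Ring.inverse (A y) b, ?_, ?_, ?_⟩
  · have h1 : AnalyticAt ℂ (fun y => Ring.inverse (A y)) x₀ := by
      have : AnalyticAt ℂ (Ring.inverse : (E →L[ℂ] E) → (E →L[ℂ] E)) (A x₀) := by
        rw [hA0]
        exact analyticAt_inverse (𝕜 := ℂ) (1 : (E →L[ℂ] E)ˣ)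
      exact this.comp hAan
    exact ((ContinuousLinearMap.apply ℂ E b).analyticAt _).comp h1
  · simp [hA0]
  · have hunit : ∀ᶠ x in 𝓝 x₀, IsUnit (A x) := by
      have : A ⁻¹' {x | IsUnit x} ∈ 𝓝 x₀ :=
        hAan.continuousAt.preimage_mem_nhds (Units.isOpen.mem_nhds (by
          change IsUnit (A x₀); rw [hA0]; exact isUnit_one))
      exact this
    filter_upwards [hunit, h.isOpen.mem_nhds hx₀] with x hu hx
    have hinj : Function.Injective (A x) := by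
      intro a c hac
      have h1 : Ring.inverse (A x) * A x = 1 := Ring.inverse_mul_cancel _ hu
      have h2 : ∀ z, Ring.inverse (A x) (A x z) = z := fun z => by
        rw [← mul_apply_eq_comp, h1]; rfl
      rw [← h2 a, ← h2 c, hac]
    obtain ⟨e1, e2⟩ := opA_main _ P hP (fderiv ℂ Γ x) (by rw [hr]; exact h.le x hx) hinj
    refine ⟨hx, by rw [e1, hr], e2 _ ?_⟩
    have h3 : A x (Ring.inverse (A x) b) = b := by
      rw [← mul_apply_eq_comp, Ring.mul_inverse_cancel _ hu]; rfl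
    change fderiv ℂ Γ x₀ (A x (Ring.inverse (A x) b)) = 0
    rw [h3]; exact hb

/-- `Claim R`: the rank is `k` along the whole fibre, and the kernel is constant along it. -/
theorem fibre (h : Hyp Ω Γ k) {x₀ y : E} (hx₀ : x₀ ∈ Ω) (hr : rk (fderiv ℂ Γ x₀) = k)
    (hy : y ∈ Ω) (hxy : fderiv ℂ Γ x₀ (y - x₀) = 0) :
    rk (fderiv ℂ Γ y) = k ∧ ∀ v, fderiv ℂ Γ y v = 0 ↔ fderiv ℂ Γ x₀ v = 0 := by
  obtain ⟨β, hβ, hβ0, hev⟩ := exists_family h hx₀ hr hxy
  have hφ : AnalyticAt ℂ (fun x => x + β x) x₀ := analyticAt_id.fun_add hβ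
  have hφ0 : x₀ + β x₀ = y := by rw [hβ0]; abel
  have hin : ∀ᶠ x in 𝓝 x₀, x + β x ∈ Ω := by
    have : (fun x => x + β x) ⁻¹' Ω ∈ 𝓝 x₀ := hφ.continuousAt.preimage_mem_nhds
      (h.isOpen.mem_nhds (by rw [hφ0]; exact hy))
    exact this
  have heq : (fun x => Γ (x + β x)) =ᶠ[𝓝 x₀] Γ := by
    filter_upwards [hin, hev] with x hx hx2
    exact (h.lev x hx2.1 hx2.2.1 _ hx).2 (by simpa using hx2.2.2)
  have hd1 : HasFDerivAt (fun x => Γ (x + β x))
      ((fderiv ℂ Γ y) ∘L (ContinuousLinearMap.id ℂ E + fderiv ℂ β x₀)) x₀ := by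
    have h1 : HasFDerivAt Γ (fderiv ℂ Γ y) (x₀ + β x₀) := by
      rw [hφ0]; exact (h.an y hy).differentiableAt.hasFDerivAt
    exact h1.comp x₀ ((hasFDerivAt_id x₀).add hβ.differentiableAt.hasFDerivAt)
  have hd2 : fderiv ℂ Γ x₀ = (fderiv ℂ Γ y) ∘L (ContinuousLinearMap.id ℂ E + fderiv ℂ β x₀) := by
    rw [← heq.fderiv_eq]
    exact hd1.fderiv
  have hrange : LinearMap.range (fderiv ℂ Γ x₀ : E →ₗ[ℂ] F) ≤
      LinearMap.range (fderiv ℂ Γ y : E →ₗ[ℂ] F) := by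
    rintro _ ⟨z, rfl⟩
    refine ⟨(ContinuousLinearMap.id ℂ E + fderiv ℂ β x₀) z, ?_⟩
    have := congrArg (fun T : E →L[ℂ] F => T z) hd2
    exact this.symm
  have hrk : rk (fderiv ℂ Γ y) = k := by
    refine le_antisymm (h.le y hy) ?_
    rw [← hr]
    exact Submodule.finrank_mono hrange
  have hker : LinearMap.ker (fderiv ℂ Γ y : E →ₗ[ℂ] F) ≤
      LinearMap.ker (fderiv ℂ Γ x₀ : E →ₗ[ℂ] F) := by
    intro v hv
    have hv' : fderiv ℂ Γ y v = 0 := hv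
    have hcont : Tendsto (fun ε : ℝ => y + (ε : ℂ) • v) (𝓝 0) (𝓝 y) := by
      have : Continuous (fun ε : ℝ => y + (ε : ℂ) • v) := by fun_prop
      have h2 := this.tendsto 0
      simpa using h2
    have hev2 : ∀ᶠ ε : ℝ in 𝓝 0, y + (ε : ℂ) • v ∈ Ω := hcont.eventually (h.isOpen.mem_nhds hy)
    obtain ⟨ε, hε, hε0⟩ : ∃ ε : ℝ, (y + (ε : ℂ) • v ∈ Ω) ∧ ε ≠ 0 := by
      obtain ⟨δ, hδ, hball⟩ := Metric.eventually_nhds_iff.1 hev2
      refine ⟨δ / 2, hball ?_, by positivity⟩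
      rw [Real.dist_eq, sub_zero, abs_of_pos (by positivity)]; linarith
    have e1 : Γ (y + (ε : ℂ) • v) = Γ y := (h.lev y hy hrk _ hε).2 (by simp [hv'])
    have e2 : Γ y = Γ x₀ := (h.lev x₀ hx₀ hr y hy).2 hxy
    have e3 : fderiv ℂ Γ x₀ (y + (ε : ℂ) • v - x₀) = 0 :=
      (h.lev x₀ hx₀ hr _ hε).1 (e1.trans e2)
    have e4 : y + (ε : ℂ) • v - x₀ = (y - x₀) + (ε : ℂ) • v := by abel
    rw [e4, map_add, hxy, zero_add, map_smul, smul_eq_zero] at e3
    rcases e3 with e3 | e3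
    · exact absurd (by exact_mod_cast e3) hε0
    · exact e3
  have hkd : LinearMap.ker (fderiv ℂ Γ y : E →ₗ[ℂ] F) =
      LinearMap.ker (fderiv ℂ Γ x₀ : E →ₗ[ℂ] F) := by
    refine Submodule.eq_of_le_of_finrank_eq hker ?_
    have e1 := rk_add_kd (fderiv ℂ Γ y)
    have e2 := rk_add_kd (fderiv ℂ Γ x₀)
    unfold kd at e1 e2
    omega
  refine ⟨hrk, fun v => ?_⟩
  have := SetLike.ext_iff.1 hkd v
  exact this

end general

end Pool.Agent.H804R4
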