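import Mathlib

set_option autoImplicit false
open scoped Topology Real
open Filter Set Metric MeasureTheory

namespace Pool.Agent.H804R4

variable {W H : Type*} [NormedAddCommGroup W] [NormedSpace ℂ W] [FiniteDimensional ℂ W]
  [NormedAddCommGroup H] [NormedSpace ℂ H] [CompleteSpace H]

theorem countable_zeros {D : Set ℂ} (hD : Convex ℝ D) {h : ℂ → ℂ} (hh : AnalyticOnNhd ℂ h D)
    {z₀ : ℂ} (hz₀ : z₀ ∈ D) (hne : h z₀ ≠ 0) : ({z | z ∈ D ∧ h z = 0}).Countable := by
  have hpre : IsPreconnected D := hD.isPreconnected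
  rcases hh.eqOn_zero_or_eventually_ne_zero_of_preconnected hpre with h0 | h0
  · exact absurd (h0 hz₀) hne
  · have h1 : ({z | h z ≠ 0}ᶜ ∩ D).Countable := by
      apply (HereditarilyLindelofSpace.isLindelof _).countable_of_isDiscrete
        (isDiscrete_of_codiscreteWithin _)
      have : {z | h z ≠ 0} ∈ codiscreteWithin D := h0
      refine mem_of_superset (inter_mem this (Filter.self_mem_codiscreteWithin D)) ?_
      intro z hz hz2
      exact hz2 hz.1
    refine h1.mono ?_
    intro z hz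
    exact ⟨by simpa using hz.2, hz.1⟩

/-- Removable singularities: a continuous map on a ball which is analytic off the zero set of a
non-trivial analytic function is `C¹` near the centre. -/
theorem removable {L : W → H} {δ : ℝ} (hδ : 0 < δ) (hL : ContinuousOn L (ball 0 δ))
    {m : W → ℂ} (hm : AnalyticOnNhd ℂ m (ball 0 δ)) {t₁ : W} (ht₁ : t₁ ∈ ball (0 : W) δ)
    (hm₁ : m t₁ ≠ 0) (hreg : ∀ t ∈ ball (0 : W) δ, m t ≠ 0 → AnalyticAt ℂ L t) :
    ContDiffAt ℂ 1 L 0 := by
  haveI : ProperSpace W := FiniteDimensional.proper ℂ W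
  set h : ℂ → ℂ := fun z => m (z • t₁) with hh
  have hlin : ∀ (t : W) (z : ℂ), AnalyticAt ℂ (fun z : ℂ => t + z • t₁) z := fun t z => by
    have h1 : AnalyticAt ℂ (fun z : ℂ => z • t₁) z :=
      (ContinuousLinearMap.toSpanSingleton ℂ t₁).analyticAt z
    exact analyticAt_const.fun_add h1
  have hlin0 : ∀ (z : ℂ), AnalyticAt ℂ (fun z : ℂ => z • t₁) z := fun z =>
      (ContinuousLinearMap.toSpanSingleton ℂ t₁).analyticAt z
  have hDconv : ∀ t : W, Convex ℝ {z : ℂ | t + z • t₁ ∈ ball (0 : W) δ} := by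
    intro t x hx y hy a b ha hb hab
    have h1 : t + (a • x + b • y) • t₁ = a • (t + x • t₁) + b • (t + y • t₁) := by
      have : t = (a + b) • t := by rw [hab, one_smul]
      rw [smul_add, smul_add, add_smul, smul_assoc, smul_assoc]
      nth_rewrite 1 [this]
      rw [add_smul]; abel
    change t + (a • x + b • y) • t₁ ∈ ball (0 : W) δ
    rw [h1]
    exact (convex_ball (0 : W) δ) hx hy ha hb hab
  -- Step 1
  obtain ⟨ε, hε, hε1, hε2⟩ : ∃ ε > 0, (∀ z : ℂ, ‖z‖ ≤ ε → z • t₁ ∈ ball (0 : W) (δ / 2)) ∧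
      ∀ z : ℂ, z ≠ 0 → ‖z‖ ≤ ε → h z ≠ 0 := by
    have hcont : Tendsto (fun z : ℂ => z • t₁) (𝓝 0) (𝓝 0) := by
      have : Continuous (fun z : ℂ => z • t₁) := by fun_prop
      simpa using this.tendsto 0
    have ev1 : ∀ᶠ z : ℂ in 𝓝 0, z • t₁ ∈ ball (0 : W) (δ / 2) :=
      hcont.eventually (ball_mem_nhds _ (by positivity))
    have hcD := hDconv 0
    simp only [zero_add] at hcD
    have hhan : AnalyticOnNhd ℂ h {z : ℂ | z • t₁ ∈ ball (0 : W) δ} := by
      intro z hz
      exact AnalyticAt.comp (g := m) (f := fun z : ℂ => z • t₁) (hm _ hz) (hlin0 z)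
    have h0mem : (0 : ℂ) ∈ {z : ℂ | z • t₁ ∈ ball (0 : W) δ} := by
      simp [hδ]
    have h1mem : (1 : ℂ) ∈ {z : ℂ | z • t₁ ∈ ball (0 : W) δ} := by
      simpa using ht₁
    have ev2 : ∀ᶠ z : ℂ in 𝓝 0, z ≠ 0 → h z ≠ 0 := by
      rcases (hhan 0 h0mem).eventually_eq_zero_or_eventually_ne_zero with h0 | h0
      · exfalso
        have := hhan.eqOn_zero_of_preconnected_of_eventuallyEq_zero hcD.isPreconnected h0mem h0
        have h2 := this h1mem
        apply hm₁
        simpa [hh] using h2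
      · exact eventually_nhdsWithin_iff.1 h0
    obtain ⟨ε, hε, hb⟩ := Metric.eventually_nhds_iff.1 (ev1.and ev2)
    refine ⟨ε / 2, by positivity, fun z hz => (hb (by rw [dist_zero_right]; linarith)).1,
      fun z hz0 hz => (hb (by rw [dist_zero_right]; linarith)).2 hz0⟩
  -- Step 2
  set O : Set W := {t | t ∈ ball (0 : W) δ ∧ m t ≠ 0} with hO
  have hOo : IsOpen O := by
    have h1 : ContinuousOn m (ball (0 : W) δ) := hm.continuousOn
    exact h1.isOpen_inter_preimage isOpen_ball isOpen_ne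
  have hLan : ∀ t ∈ O, AnalyticAt ℂ L t := fun t ht => hreg t ht.1 ht.2
  obtain ⟨r, hr, hrδ, hrO⟩ : ∃ r > 0, r ≤ δ / 2 ∧ ∀ t : W, ‖t‖ < r → ∀ z : ℂ, ‖z‖ = ε →
      t + z • t₁ ∈ O := by
    have hC : IsCompact ((fun z : ℂ => z • t₁) '' sphere 0 ε) :=
      (isCompact_sphere 0 ε).image (by fun_prop)
    have hCO : ((fun z : ℂ => z • t₁) '' sphere 0 ε) ⊆ O := by
      rintro _ ⟨z, hz, rfl⟩
      have hz' : ‖z‖ = ε := by simpa using hz
      refine ⟨ball_subset_ball (by linarith) (hε1 z hz'.le), hε2 z ?_ hz'.le⟩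
      intro h0; rw [h0, norm_zero] at hz'; linarith
    obtain ⟨r0, hr0, hth⟩ := hC.exists_thickening_subset_open hOo hCO
    refine ⟨min r0 (δ / 2), by positivity, min_le_right _ _, fun t ht z hz => ?_⟩
    apply hth
    rw [mem_thickening_iff]
    refine ⟨z • t₁, ⟨z, by simpa using hz, rfl⟩, ?_⟩
    rw [dist_eq_norm]
    have : t + z • t₁ - z • t₁ = t := by abel
    rw [this]
    exact lt_of_lt_of_le ht (min_le_left _ _)
  -- Step 3
  have hmean : ∀ t : W, ‖t‖ < r → L t = Real.circleAverage (fun z => L (t + z • t₁)) 0 ε := by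
    intro t ht
    have hin : ∀ z : ℂ, ‖z‖ ≤ ε → t + z • t₁ ∈ ball (0 : W) δ := by
      intro z hz
      have h1 := hε1 z hz
      rw [mem_ball_zero_iff] at h1 ⊢
      calc ‖t + z • t₁‖ ≤ ‖t‖ + ‖z • t₁‖ := norm_add_le _ _
        _ < δ := by linarith
    have hc : ContinuousOn (fun z : ℂ => L (t + z • t₁)) (closedBall 0 |ε|) := by
      rw [abs_of_pos hε]
      refine hL.comp (by fun_prop) ?_
      intro z hz
      exact hin z (by simpa using hz)
    have hs := countable_zeros (D := {z : ℂ | t + z • t₁ ∈ ball (0 : W) δ})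
      (hDconv t) (h := fun z => m (t + z • t₁)) (fun z hz =>
        AnalyticAt.comp (g := m) (f := fun z : ℂ => t + z • t₁) (hm _ hz) (hlin t z))
      (z₀ := (ε : ℂ)) (hin _ (by simp [abs_of_pos hε])) ((hrO t ht _ (by simp [abs_of_pos hε])).2)
    have := circleAverage_of_differentiable_on_off_countable (f := fun z : ℂ => L (t + z • t₁))
      (c := 0) (R := ε) hs hc (by
        intro z hz
        rw [abs_of_pos hε] at hz
        have hz1 : ‖z‖ ≤ ε := by
          have := hz.1; rw [mem_ball_zero_iff] at this; exact this.le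
        have hz2 : m (t + z • t₁) ≠ 0 := fun h0 => hz.2 ⟨hin z hz1, h0⟩
        exact (AnalyticAt.comp (g := L) (f := fun z : ℂ => t + z • t₁)
          (hreg _ (hin z hz1) hz2) (hlin t z)).differentiableAt)
    rw [this]
    simp
  -- Step 4
  have hcircle : ∀ θ : ℝ, ‖circleMap 0 ε θ‖ = ε := fun θ => by
    simp [circleMap, abs_of_pos hε]
  have hfc : ContinuousOn (fderiv ℂ L) O := by
    intro t ht
    exact ((hLan t ht).fderiv.continuousAt).continuousWithinAt
  obtain ⟨M, hM⟩ : ∃ M, ∀ t : W, ‖t‖ ≤ r / 2 → ∀ z : ℂ, ‖z‖ = ε →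
      ‖fderiv ℂ L (t + z • t₁)‖ ≤ M := by
    have hK : IsCompact ((fun p : W × ℂ => p.1 + p.2 • t₁) '' (closedBall 0 (r / 2) ×ˢ sphere 0 ε)) :=
      ((isCompact_closedBall _ _).prod (isCompact_sphere _ _)).image (by fun_prop)
    have hKO : ((fun p : W × ℂ => p.1 + p.2 • t₁) '' (closedBall 0 (r / 2) ×ˢ sphere 0 ε)) ⊆ O := by
      rintro _ ⟨⟨t, z⟩, ⟨h1, h2⟩, rfl⟩
      have h1' : ‖t‖ ≤ r / 2 := by simpa using h1
      have h2' : ‖z‖ = ε := by simpa using h2
      exact hrO t (by linarith) z h2'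
    obtain ⟨M, hM⟩ := hK.exists_bound_of_continuousOn (hfc.mono hKO)
    refine ⟨M, fun t ht z hz => hM _ ⟨(t, z), ⟨by simpa using ht, by simpa using hz⟩, rfl⟩⟩
  have hcθ : ∀ t : W, ‖t‖ < r → Continuous (fun θ : ℝ => L (t + circleMap 0 ε θ • t₁)) := by
    intro t ht
    rw [continuous_iff_continuousAt]
    intro θ
    have h1 : ContinuousAt L (t + circleMap 0 ε θ • t₁) :=
      (hLan _ (hrO t ht _ (hcircle θ))).continuousAt
    have h2 : Continuous (fun θ : ℝ => t + circleMap 0 ε θ • t₁) := by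
      have := continuous_circleMap 0 ε
      fun_prop
    exact ContinuousAt.comp (g := L) (f := fun θ : ℝ => t + circleMap 0 ε θ • t₁) h1
      h2.continuousAt
  have hcθ' : ∀ t : W, ‖t‖ < r →
      Continuous (fun θ : ℝ => fderiv ℂ L (t + circleMap 0 ε θ • t₁)) := by
    intro t ht
    rw [continuous_iff_continuousAt]
    intro θ
    have h1 : ContinuousAt (fderiv ℂ L) (t + circleMap 0 ε θ • t₁) :=
      (hLan _ (hrO t ht _ (hcircle θ))).fderiv.continuousAt
    have h2 : Continuous (fun θ : ℝ => t + circleMap 0 ε θ • t₁) := by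
      have := continuous_circleMap 0 ε
      fun_prop
    exact ContinuousAt.comp (g := fderiv ℂ L) (f := fun θ : ℝ => t + circleMap 0 ε θ • t₁) h1
      h2.continuousAt
  set f' : W → (W →L[ℂ] H) := fun t =>
    (2 * π)⁻¹ • ∫ θ in (0 : ℝ)..2 * π, fderiv ℂ L (t + circleMap 0 ε θ • t₁) with hf'
  rw [contDiffAt_one_iff]
  refine ⟨f', ball 0 (r / 2), ball_mem_nhds _ (by positivity), ?_, ?_⟩
  · intro t ht
    have ht' : ‖t‖ < r / 2 := by simpa using ht
    refine ContinuousAt.continuousWithinAt ?_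
    refine ContinuousAt.const_smul (g := fun t => ∫ θ in (0 : ℝ)..2 * π,
      fderiv ℂ L (t + circleMap 0 ε θ • t₁)) ?_ (2 * π)⁻¹
    refine intervalIntegral.continuousAt_of_dominated_interval (bound := fun _ => M) ?_ ?_ ?_ ?_
    · filter_upwards [isOpen_ball.mem_nhds ht] with x hx
      have hx' : ‖x‖ < r / 2 := by simpa using hx
      exact (hcθ' x (by linarith)).aestronglyMeasurable
    · filter_upwards [isOpen_ball.mem_nhds ht] with x hx
      have hx' : ‖x‖ < r / 2 := by simpa using hx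
      exact Eventually.of_forall fun θ _ => hM x hx'.le _ (hcircle θ)
    · exact intervalIntegrable_const
    · refine Eventually.of_forall fun θ _ => ?_
      have h1 : ContinuousAt (fderiv ℂ L) (t + circleMap 0 ε θ • t₁) :=
        (hLan _ (hrO t (by linarith) _ (hcircle θ))).fderiv.continuousAt
      exact ContinuousAt.comp (g := fderiv ℂ L) (f := fun t : W => t + circleMap 0 ε θ • t₁) h1
        (by fun_prop)
  · intro t ht
    have ht' : ‖t‖ < r / 2 := by simpa using ht
    have hd : HasFDerivAt (fun t => (2 * π)⁻¹ • ∫ θ in (0 : ℝ)..2 * π,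
        L (t + circleMap 0 ε θ • t₁)) (f' t) t := by
      refine HasFDerivAt.fun_const_smul ?_ _
      refine intervalIntegral.hasFDerivAt_integral_of_dominated_of_fderiv_le
        (s := ball 0 (r / 2)) (bound := fun _ => M)
        (F := fun t θ => L (t + circleMap 0 ε θ • t₁))
        (F' := fun t θ => fderiv ℂ L (t + circleMap 0 ε θ • t₁))
        (isOpen_ball.mem_nhds ht) ?_ ?_ ?_ ?_ ?_ ?_
      · filter_upwards [isOpen_ball.mem_nhds ht] with x hx
        have hx' : ‖x‖ < r / 2 := by simpa using hx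
        exact (hcθ x (by linarith)).aestronglyMeasurable
      · exact (hcθ t (by linarith)).intervalIntegrable _ _
      · exact (hcθ' t (by linarith)).aestronglyMeasurable
      · refine Eventually.of_forall fun θ _ x hx => ?_
        have hx' : ‖x‖ < r / 2 := by simpa using hx
        exact hM x hx'.le _ (hcircle θ)
      · exact intervalIntegrable_const
      · refine Eventually.of_forall fun θ _ x hx => ?_
        have hx' : ‖x‖ < r / 2 := by simpa using hx
        have h1 : HasFDerivAt L (fderiv ℂ L (x + circleMap 0 ε θ • t₁))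
            (x + circleMap 0 ε θ • t₁) :=
          (hLan _ (hrO x (by linarith) _ (hcircle θ))).differentiableAt.hasFDerivAt
        have h2 : HasFDerivAt (fun x : W => x + circleMap 0 ε θ • t₁)
            (ContinuousLinearMap.id ℂ W) x := (hasFDerivAt_id x).add_const _
        have h3 := h1.comp x h2
        rw [ContinuousLinearMap.comp_id] at h3
        exact h3
    refine hd.congr_of_eventuallyEq ?_
    filter_upwards [isOpen_ball.mem_nhds ht] with x hx
    have hx' : ‖x‖ < r / 2 := by simpa using hx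
    rw [hmean x (by linarith), Real.circleAverage_def]

end Pool.Agent.H804R4
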