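import Mathlib
import Pool.Agent.H804R4.Fibre
import Pool.Agent.H804R4.Removable
import Pool.Agent.H804R4.DetBound

set_option autoImplicit false
open scoped Topology
open Filter Set Metric

namespace Pool.Agent.H804R4

variable {W V F : Type*} [NormedAddCommGroup W] [NormedSpace ℂ W] [FiniteDimensional ℂ W]
  [NormedAddCommGroup V] [NormedSpace ℂ V] [FiniteDimensional ℂ V]
  [NormedAddCommGroup F] [NormedSpace ℂ F] [FiniteDimensional ℂ F]

omit [FiniteDimensional ℂ F] in
theorem ker_eq_graph (T : W × V →L[ℂ] F) (hT : rk T = Module.finrank ℂ W) (L : V →L[ℂ] W)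
    (hL : ∀ v, T (L v, v) = 0) (x : W × V) (hx : T x = 0) : x.1 = L x.2 := by
  let g : V →ₗ[ℂ] LinearMap.ker (T : W × V →ₗ[ℂ] F) :=
    LinearMap.codRestrict _ (LinearMap.prod (L : V →ₗ[ℂ] W) LinearMap.id) (fun v => by
      change T (L v, v) = 0
      exact hL v)
  have hg : Function.Injective g := by
    intro a b hab
    have := congrArg (fun z : LinearMap.ker (T : W × V →ₗ[ℂ] F) => (z : W × V).2) hab
    exact this
  have hdim : Module.finrank ℂ V = Module.finrank ℂ (LinearMap.ker (T : W × V →ₗ[ℂ] F)) := by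
    have h1 := rk_add_kd T
    rw [Module.finrank_prod] at h1
    unfold kd at h1
    omega
  have hsurj : Function.Surjective g :=
    (LinearMap.injective_iff_surjective_of_finrank_eq_finrank hdim).1 hg
  obtain ⟨v, hv⟩ := hsurj ⟨x, hx⟩
  have h1 := congrArg (fun z : LinearMap.ker (T : W × V →ₗ[ℂ] F) => (z : W × V)) hv
  have h2 : (L v, v) = x := h1
  rw [← h2]

theorem analytic_L {Ω : Set (W × V)} {G : W × V → F} (h : Hyp Ω G (Module.finrank ℂ W))
    {L : W → (V →L[ℂ] W)} {δ : ℝ}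
    (h0 : ∀ t ∈ ball (0 : W) δ, (t, (0 : V)) ∈ Ω)
    (hK : ∀ t ∈ ball (0 : W) δ, rk (fderiv ℂ G (t, 0)) = Module.finrank ℂ W →
      ∀ v, fderiv ℂ G (t, 0) (L t v, v) = 0)
    {t : W} (ht : t ∈ ball (0 : W) δ) (hT : rk (fderiv ℂ G (t, 0)) = Module.finrank ℂ W) :
    AnalyticAt ℂ L t ∧ (∀ᶠ t' in 𝓝 t, rk (fderiv ℂ G (t', 0)) = Module.finrank ℂ W) ∧
      ∀ τ, fderiv ℂ G (t, 0) (τ, 0) = 0 → τ = 0 := by
  have := FiniteDimensional.complete ℂ F
  have := FiniteDimensional.complete ℂ W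
  have hinj : ∀ τ, fderiv ℂ G (t, 0) (τ, 0) = 0 → τ = 0 := by
    intro τ hτ
    have := ker_eq_graph _ hT (L t) (hK t ht hT) (τ, 0) hτ
    simpa using this
  have hev : ∀ᶠ t' in 𝓝 t, rk (fderiv ℂ G (t', 0)) = Module.finrank ℂ W := by
    obtain ⟨β, _, _, hβ⟩ := exists_family h (h0 t ht) hT (b := 0) (by simp)
    have hc : Tendsto (fun t' : W => (t', (0 : V))) (𝓝 t) (𝓝 (t, 0)) := by
      have : Continuous (fun t' : W => (t', (0 : V))) := by fun_prop
      exact this.tendsto t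
    exact (hc.eventually hβ).mono (fun t' ht' => ht'.2.1)
  refine ⟨?_, hev, hinj⟩
  obtain ⟨P, hP⟩ := LinearMap.exists_leftInverse_of_injective
    ((fderiv ℂ G (t, 0) : W × V →ₗ[ℂ] F) ∘ₗ LinearMap.inl ℂ W V) (by
      rw [LinearMap.ker_eq_bot']
      intro τ hτ
      exact hinj τ hτ)
  set Pc : F →L[ℂ] W := LinearMap.toContinuousLinearMap P with hPc
  set D : W → (W × V →L[ℂ] F) := fun t' => fderiv ℂ G (t', 0) with hD
  set a : W → (W →L[ℂ] W) := fun t' => (Pc ∘L (D t')) ∘L ContinuousLinearMap.inl ℂ W V with ha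
  set c : W → (V →L[ℂ] W) := fun t' => (Pc ∘L (D t')) ∘L ContinuousLinearMap.inr ℂ W V with hc
  have hDan : AnalyticAt ℂ D t := by
    have h1 : AnalyticAt ℂ (fun x => fderiv ℂ G x) (t, 0) := h.an.fderiv _ (h0 t ht)
    have h2 : AnalyticAt ℂ (fun t' : W => (t', (0 : V))) t :=
      (ContinuousLinearMap.inl ℂ W V).analyticAt t
    exact AnalyticAt.comp (g := fun x => fderiv ℂ G x) (f := fun t' : W => (t', (0 : V))) h1 h2
  have hPD : AnalyticAt ℂ (fun t' => Pc ∘L (D t')) t :=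
    ((ContinuousLinearMap.compL ℂ (W × V) F W Pc).analyticAt _).comp hDan
  have haan : AnalyticAt ℂ a t :=
    (((ContinuousLinearMap.compL ℂ W (W × V) W).flip
      (ContinuousLinearMap.inl ℂ W V)).analyticAt _).comp hPD
  have hcan : AnalyticAt ℂ c t :=
    (((ContinuousLinearMap.compL ℂ V (W × V) W).flip
      (ContinuousLinearMap.inr ℂ W V)).analyticAt _).comp hPD
  have hat : a t = 1 := by
    ext τ
    have := LinearMap.congr_fun hP τ
    exact this
  have hinv : AnalyticAt ℂ (fun t' => Ring.inverse (a t')) t := by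
    have : AnalyticAt ℂ (Ring.inverse : (W →L[ℂ] W) → (W →L[ℂ] W)) (a t) := by
      rw [hat]
      exact analyticAt_inverse (𝕜 := ℂ) (1 : (W →L[ℂ] W)ˣ)
    exact this.comp haan
  have hform : AnalyticAt ℂ (fun t' => -((Ring.inverse (a t')) ∘L (c t'))) t := by
    have h1 : AnalyticAt ℂ (fun t' => (Ring.inverse (a t'), c t')) t := hinv.prod hcan
    have h2 : AnalyticAt ℂ (fun p : (W →L[ℂ] W) × (V →L[ℂ] W) => p.1 ∘L p.2)
        (Ring.inverse (a t), c t) :=
      (ContinuousLinearMap.compL ℂ V W W).analyticAt_bilinear _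
    exact (AnalyticAt.comp (g := fun p : (W →L[ℂ] W) × (V →L[ℂ] W) => p.1 ∘L p.2)
      (f := fun t' => (Ring.inverse (a t'), c t')) h2 h1).fun_neg
  have hunit : ∀ᶠ t' in 𝓝 t, IsUnit (a t') := by
    have : a ⁻¹' {x | IsUnit x} ∈ 𝓝 t :=
      haan.continuousAt.preimage_mem_nhds (Units.isOpen.mem_nhds (by
        change IsUnit (a t); rw [hat]; exact isUnit_one))
    exact this
  refine hform.congr ?_
  filter_upwards [hunit, hev, isOpen_ball.mem_nhds ht] with t' hu hr hb
  ext v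
  have h1 := hK t' hb hr v
  have h2 : (L t' v, v) = ContinuousLinearMap.inl ℂ W V (L t' v) +
      ContinuousLinearMap.inr ℂ W V v := by simp
  have h3 : a t' (L t' v) + c t' v = 0 := by
    have : Pc (D t' (L t' v, v)) = 0 := by rw [hD]; simp only; rw [h1, map_zero]
    rw [h2, map_add, map_add] at this
    exact this
  have h4 : Ring.inverse (a t') (a t' (L t' v)) = L t' v := by
    rw [← mul_apply_eq_comp, Ring.inverse_mul_cancel _ hu]; rfl
  have h5 : a t' (L t' v) = -(c t' v) := eq_neg_of_add_eq_zero_left h3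
  change -(Ring.inverse (a t') (c t' v)) = L t' v
  rw [← h4, h5, map_neg]

end Pool.Agent.H804R4
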