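import Mathlib
import Pool.Agent.H804R4.Core

set_option autoImplicit false
open scoped Topology
open Filter Set Metric

namespace Pool.Agent.H804R4

variable {W V F : Type*} [NormedAddCommGroup W] [NormedSpace ℂ W] [FiniteDimensional ℂ W]
  [NormedAddCommGroup V] [NormedSpace ℂ V] [FiniteDimensional ℂ V]
  [NormedAddCommGroup F] [NormedSpace ℂ F] [FiniteDimensional ℂ F]

theorem core {Ω : Set (W × V)} {G : W × V → F} (h : Hyp Ω G (Module.finrank ℂ W))
    {L : W → (V →L[ℂ] W)} {δ : ℝ} (hδ : 0 < δ) (hL : ContinuousOn L (ball 0 δ))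
    (h0 : ∀ t ∈ ball (0 : W) δ, (t, (0 : V)) ∈ Ω)
    (hK : ∀ t ∈ ball (0 : W) δ, rk (fderiv ℂ G (t, 0)) = Module.finrank ℂ W →
      ∀ v, fderiv ℂ G (t, 0) (L t v, v) = 0)
    (hgen : ∃ t ∈ ball (0 : W) δ, rk (fderiv ℂ G (t, 0)) = Module.finrank ℂ W)
    (s₀ : V) (hs : (L 0 s₀, s₀) ∈ Ω) :
    ∃ U : Set (W × V), IsOpen U ∧ (L 0 s₀, s₀) ∈ U ∧ U ⊆ Ω ∧
      ∃ L' : W × V → (V →L[ℂ] W), ContinuousOn L' U ∧
        ∀ x ∈ U, ∀ v, fderiv ℂ G x (L' x v, v) = 0 := by
  have := FiniteDimensional.complete ℂ F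
  have := FiniteDimensional.complete ℂ W
  have := FiniteDimensional.complete ℂ V
  obtain ⟨t₁, ht₁, hr₁⟩ := hgen
  obtain ⟨μ, hμan, hμ1, hμ⟩ := exists_detector h hr₁
  set m : W → ℂ := fun t => μ (t, 0) with hm
  have hman : AnalyticOnNhd ℂ m (ball 0 δ) := by
    intro t ht
    exact AnalyticAt.comp (g := μ) (f := fun t : W => (t, (0 : V))) (hμan _ (h0 t ht))
      ((ContinuousLinearMap.inl ℂ W V).analyticAt t)
  have hmT : ∀ t ∈ ball (0 : W) δ, m t ≠ 0 → rk (fderiv ℂ G (t, 0)) = Module.finrank ℂ W :=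
    fun t ht hmt => hμ _ (h0 t ht) hmt
  -- generic points are dense in the slice
  have hfreq : ∀ t ∈ ball (0 : W) δ, ∃ᶠ t' in 𝓝 t, m t' ≠ 0 := by
    intro t ht
    by_contra hcon
    rw [not_frequently] at hcon
    have hz : ∀ᶠ t' in 𝓝 t, m t' = 0 := hcon.mono fun t' ht' => not_not.1 ht'
    have := hman.eqOn_zero_of_preconnected_of_eventuallyEq_zero
      (convex_ball (0 : W) δ).isPreconnected ht hz
    exact hμ1 (this ht₁)
  have h00 : (0 : W) ∈ ball (0 : W) δ := mem_ball_self hδ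
  have hcd : ContDiffAt ℂ 1 L 0 := removable hδ hL hman ht₁ hμ1
    (fun t ht hmt => (analytic_L h h0 hK ht (hmT t ht hmt)).1)
  have hLd : ContinuousAt (fderiv ℂ L) 0 := by
    exact hcd.continuousAt_fderiv (by norm_num)
  set Mt : W → (W →L[ℂ] W) := fun t => (fderiv ℂ L t).flip s₀ with hMt
  have hMtc : ContinuousAt Mt 0 := by
    have h1 : Continuous (fun T : W →L[ℂ] (V →L[ℂ] W) => T.flip s₀) := by
      have : (fun T : W →L[ℂ] (V →L[ℂ] W) => T.flip s₀) = fun T =>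
        ((ContinuousLinearMap.apply ℂ W s₀ : (V →L[ℂ] W) →L[ℂ] W) ∘L T) := by
        funext T; ext w; rfl
      rw [this]
      exact (ContinuousLinearMap.compL ℂ W (V →L[ℂ] W) W
        (ContinuousLinearMap.apply ℂ W s₀ : (V →L[ℂ] W) →L[ℂ] W)).continuous
    exact h1.continuousAt.comp hLd
  -- choose the neighbourhood of (0,1)
  obtain ⟨ρ, hρ, hρ1, hρΩ⟩ : ∃ ρ > 0, ρ ≤ 1 ∧ ∀ t : W, ‖t‖ < ρ → ∀ l : ℂ, ‖l - 1‖ < ρ →
      t ∈ ball (0 : W) δ ∧ (t + L t (l • s₀), l • s₀) ∈ Ω := by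
    have hLc : ContinuousAt L 0 := hL.continuousAt (isOpen_ball.mem_nhds h00)
    have hc : ContinuousAt (fun p : W × ℂ => (p.1 + L p.1 (p.2 • s₀), p.2 • s₀)) (0, 1) := by
      have h1 : ContinuousAt (fun p : W × ℂ => L p.1) (0, 1) :=
        ContinuousAt.comp (g := L) (f := fun p : W × ℂ => p.1) hLc continuousAt_fst
      have h2 : ContinuousAt (fun p : W × ℂ => p.2 • s₀) (0, 1) :=
        continuousAt_snd.smul continuousAt_const
      exact (continuousAt_fst.add (h1.clm_apply h2)).prodMk h2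
    have hval : (fun p : W × ℂ => (p.1 + L p.1 (p.2 • s₀), p.2 • s₀)) (0, 1) = (L 0 s₀, s₀) := by
      simp
    have hev : ∀ᶠ p : W × ℂ in 𝓝 (0, 1), (p.1 + L p.1 (p.2 • s₀), p.2 • s₀) ∈ Ω :=
      hc.eventually (by rw [hval]; exact h.isOpen.mem_nhds hs)
    obtain ⟨ε, hε, hb⟩ := Metric.eventually_nhds_iff.1 hev
    refine ⟨min ε (min δ 1), by positivity, (min_le_right _ _).trans (min_le_right _ _),
      fun t ht l hl => ⟨?_, ?_⟩⟩
    · rw [mem_ball_zero_iff]
      exact lt_of_lt_of_le ht ((min_le_right _ _).trans (min_le_left _ _))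
    · refine hb (y := (t, l)) ?_
      rw [Prod.dist_eq, max_lt_iff, dist_zero_right, dist_eq_norm]
      exact ⟨lt_of_lt_of_le ht (min_le_left _ _), lt_of_lt_of_le hl (min_le_left _ _)⟩
  -- injectivity at generic points
  have hinjgen : ∀ t : W, ‖t‖ < ρ → m t ≠ 0 → ∀ l : ℂ, ‖l - 1‖ < ρ →
      ∀ τ, τ + l • (Mt t : W →ₗ[ℂ] W) τ = 0 → τ = 0 := by
    intro t ht hmt l hl τ hτ
    obtain ⟨htb, hy⟩ := hρΩ t ht l hl
    obtain ⟨hLan, hev, hinj⟩ := analytic_L h h0 hK htb (hmT t htb hmt)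
    set φ : W → W × V := fun t' => (t' + L t' (l • s₀), l • s₀) with hφ
    have hφd : HasFDerivAt φ (((ContinuousLinearMap.id ℂ W) +
        (fderiv ℂ L t).flip (l • s₀)).prod (0 : W →L[ℂ] V)) t := by
      have h1 : HasFDerivAt (fun t' : W => L t' (l • s₀)) ((fderiv ℂ L t).flip (l • s₀)) t := by
        have h2 := hLan.differentiableAt.hasFDerivAt.clm_apply (hasFDerivAt_const (l • s₀) t)
        simpa using h2
      exact ((hasFDerivAt_id t).add h1).prodMk (hasFDerivAt_const (l • s₀) t)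
    have hφΩ : ∀ᶠ t' in 𝓝 t, φ t' ∈ Ω :=
      hφd.continuousAt.eventually (h.isOpen.mem_nhds hy)
    have heq : (fun t' => G (φ t')) =ᶠ[𝓝 t] (fun t' => G (t', 0)) := by
      filter_upwards [hφΩ, hev, isOpen_ball.mem_nhds htb] with t' h1 h2 h3
      refine (h.lev (t', 0) (h0 t' h3) h2 _ h1).2 ?_
      have h4 : φ t' - (t', (0 : V)) = (L t' (l • s₀), l • s₀) := by
        simp [hφ]
      rw [h4]
      exact hK t' h3 h2 _
    have hd1 : HasFDerivAt (fun t' => G (φ t')) ((fderiv ℂ G (φ t)) ∘L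
        (((ContinuousLinearMap.id ℂ W) +
        (fderiv ℂ L t).flip (l • s₀)).prod (0 : W →L[ℂ] V))) t :=
      ((h.an _ hy).differentiableAt.hasFDerivAt).comp t hφd
    have hd2 : HasFDerivAt (fun t' => G (t', 0)) ((fderiv ℂ G (t, 0)) ∘L
        (ContinuousLinearMap.inl ℂ W V)) t :=
      ((h.an _ (h0 t htb)).differentiableAt.hasFDerivAt).comp t
        ((ContinuousLinearMap.inl ℂ W V).hasFDerivAt)
    have hdd := hd1.unique (hd2.congr_of_eventuallyEq heq)
    have h5 := congrArg (fun T : W →L[ℂ] F => T τ) hdd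
    have h6 : fderiv ℂ G (φ t) (τ + (fderiv ℂ L t) τ (l • s₀), 0) = fderiv ℂ G (t, 0) (τ, 0) := h5
    have h7 : τ + (fderiv ℂ L t) τ (l • s₀) = 0 := by
      rw [← hτ]
      simp [hMt]
    rw [h7] at h6
    apply hinj
    rw [← h6]
    exact map_zero _
  -- the determinant bound passes to the limit
  have hdet : LinearMap.det (1 + (Mt 0 : W →ₗ[ℂ] W)) ≠ 0 := by
    set c : ℝ := (ρ / 2) ^ (Module.finrank ℂ W) with hc
    have hcpos : 0 < c := by positivity
    have hcont : ContinuousAt (fun t => ‖(1 + Mt t : W →L[ℂ] W).det‖) 0 := by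
      have h1 : ContinuousAt (fun t => (1 + Mt t : W →L[ℂ] W)) 0 := continuousAt_const.add hMtc
      exact (ContinuousLinearMap.continuous_det.continuousAt.comp h1).norm
    have hfr : ∃ᶠ t in 𝓝 (0 : W), ‖(1 + Mt t : W →L[ℂ] W).det‖ ∈ Ici c := by
      have hb : ∀ᶠ t in 𝓝 (0 : W), ‖t‖ < ρ := by
        have := ball_mem_nhds (0 : W) hρ
        filter_upwards [this] with t ht
        simpa using ht
      refine ((hfreq 0 h00).and_eventually hb).mono ?_
      rintro t ⟨h1, h2⟩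
      exact det_lower _ ρ hρ hρ1 (hinjgen t h2 h1)
    have : ‖(1 + Mt 0 : W →L[ℂ] W).det‖ ∈ Ici c :=
      isClosed_Ici.mem_of_frequently_of_tendsto hfr hcont
    intro hzero
    have h2 : (1 + Mt 0 : W →L[ℂ] W).det = 0 := hzero
    rw [h2, norm_zero] at this
    exact absurd this (not_le.2 hcpos)
  have hinj0 : ∀ τ, τ + (fderiv ℂ L 0) τ s₀ = 0 → τ = 0 := by
    have hu : IsUnit (1 + (Mt 0 : W →ₗ[ℂ] W)) :=
      (LinearMap.isUnit_iff_isUnit_det _).2 (isUnit_iff_ne_zero.2 hdet)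
    have hk := (LinearMap.isUnit_iff_ker_eq_bot _).1 hu
    intro τ hτ
    exact (LinearMap.ker_eq_bot'.1 hk) τ hτ
  -- inverse function theorem
  set Φ : W × V → W × V := fun p => (p.1 + L p.1 p.2, p.2) with hΦ
  set D : W × V →L[ℂ] W × V :=
    ((ContinuousLinearMap.fst ℂ W V) + ((L 0) ∘L (ContinuousLinearMap.snd ℂ W V) +
      (((fderiv ℂ L 0) ∘L (ContinuousLinearMap.fst ℂ W V)).flip s₀))).prod
      (ContinuousLinearMap.snd ℂ W V) with hD
  have hDapp : ∀ p : W × V, D p = (p.1 + (L 0 p.2 + (fderiv ℂ L 0) p.1 s₀), p.2) := fun p => rfl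
  have hLs : HasStrictFDerivAt L (fderiv ℂ L 0) 0 := hcd.hasStrictFDerivAt (by norm_num)
  have hΦd : HasStrictFDerivAt Φ D (0, s₀) := by
    have h1 : HasStrictFDerivAt (fun p : W × V => L p.1)
        ((fderiv ℂ L 0) ∘L (ContinuousLinearMap.fst ℂ W V)) (0, s₀) :=
      HasStrictFDerivAt.comp (g := L) (f := fun p : W × V => p.1) (x := (0, s₀)) hLs
        hasStrictFDerivAt_fst
    have h2 := h1.clm_apply (u := fun p : W × V => p.2) hasStrictFDerivAt_snd
    exact (hasStrictFDerivAt_fst.add h2).prodMk hasStrictFDerivAt_snd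
  have hDinj : Function.Injective D := by
    intro p q hpq
    have h1 : D (p - q) = 0 := by rw [map_sub, hpq, sub_self]
    rw [hDapp] at h1
    have h2 : (p - q).2 = 0 := congrArg Prod.snd h1
    have h3 := congrArg Prod.fst h1
    simp only [h2, map_zero, zero_add] at h3
    have h4 := hinj0 _ h3
    have : p - q = 0 := Prod.ext h4 h2
    exact sub_eq_zero.1 this
  let De : (W × V) ≃L[ℂ] (W × V) :=
    (LinearEquiv.ofInjectiveEndo (D : W × V →ₗ[ℂ] W × V) hDinj).toContinuousLinearEquiv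
  have hDe : (De : W × V →L[ℂ] W × V) = D := by
    ext p <;> rfl
  have hΦd' : HasStrictFDerivAt Φ (De : W × V →L[ℂ] W × V) (0, s₀) := by rw [hDe]; exact hΦd
  set e := hΦd'.toOpenPartialHomeomorph Φ with he
  have hΦ0 : Φ (0, s₀) = (L 0 s₀, s₀) := by simp [hΦ]
  have hesymm0 : e.symm (L 0 s₀, s₀) = (0, s₀) := by
    rw [← hΦ0]
    exact e.left_inv hΦd'.mem_toOpenPartialHomeomorph_source
  have htarget : (L 0 s₀, s₀) ∈ e.target := by
    rw [← hΦ0]
    exact hΦd'.image_mem_toOpenPartialHomeomorph_target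
  refine ⟨Ω ∩ (e.target ∩ e.symm ⁻¹' (ball (0 : W) δ ×ˢ univ)),
    h.isOpen.inter (e.isOpen_inter_preimage_symm (isOpen_ball.prod isOpen_univ)),
    ⟨hs, htarget, ?_⟩, inter_subset_left, fun x => L (e.symm x).1, ?_, ?_⟩
  · change e.symm (L 0 s₀, s₀) ∈ (ball (0 : W) δ ×ˢ (univ : Set V))
    rw [hesymm0]
    exact ⟨h00, mem_univ _⟩
  · refine hL.comp ?_ ?_
    · refine continuous_fst.comp_continuousOn ?_
      exact e.continuousOn_symm.mono (fun x hx => hx.2.1)
    · intro x hx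
      exact hx.2.2.1
  · rintro x ⟨hxΩ, hxt, hxb⟩ v
    obtain ⟨t, s, hts⟩ : ∃ t s, e.symm x = (t, s) := ⟨_, _, rfl⟩
    have hxb' : e.symm x ∈ (ball (0 : W) δ ×ˢ (univ : Set V)) := hxb
    rw [hts] at hxb'
    have htb : t ∈ ball (0 : W) δ := hxb'.1
    have hΦx : Φ (t, s) = x := by
      rw [← hts]
      exact e.right_inv hxt
    simp only [hts]
    have hLt : ContinuousAt L t := hL.continuousAt (isOpen_ball.mem_nhds htb)
    have hc1 : ContinuousAt (fun t' : W => Φ (t', s)) t := by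
      have h1 : ContinuousAt (fun t' : W => L t' s) t := hLt.clm_apply continuousAt_const
      exact (continuousAt_id.add h1).prodMk continuousAt_const
    have hc2 : ContinuousAt (fun t' : W => fderiv ℂ G (Φ (t', s)) (L t' v, v)) t := by
      have hG : ContinuousAt (fderiv ℂ G) (Φ (t, s)) := by
        rw [hΦx]; exact (h.an.fderiv x hxΩ).continuousAt
      have h1 : ContinuousAt (fun t' : W => fderiv ℂ G (Φ (t', s))) t :=
        ContinuousAt.comp (g := fderiv ℂ G) (f := fun t' : W => Φ (t', s)) hG hc1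
      have h2 : ContinuousAt (fun t' : W => (L t' v, v)) t :=
        (hLt.clm_apply continuousAt_const).prodMk continuousAt_const
      exact h1.clm_apply h2
    have hev : ∀ᶠ t' in 𝓝 t, Φ (t', s) ∈ Ω :=
      hc1.eventually (by
        have : Ω ∈ 𝓝 (Φ (t, s)) := by rw [hΦx]; exact h.isOpen.mem_nhds hxΩ
        exact this)
    have hfr : ∃ᶠ t' in 𝓝 t, fderiv ℂ G (Φ (t', s)) (L t' v, v) ∈ ({0} : Set F) := by
      refine ((hfreq t htb).and_eventually (hev.and (isOpen_ball.mem_nhds htb))).mono ?_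
      rintro t' ⟨h1, h2, h3⟩
      have hr := hmT t' h3 h1
      have h4 : Φ (t', s) - (t', (0 : V)) = (L t' s, s) := by simp [hΦ]
      have h5 := fibre h (h0 t' h3) hr h2 (by rw [h4]; exact hK t' h3 hr s)
      exact (h5.2 _).2 (hK t' h3 hr v)
    have hlim : fderiv ℂ G (Φ (t, s)) (L t v, v) ∈ ({0} : Set F) :=
      isClosed_singleton.mem_of_frequently_of_tendsto hfr hc2
    rw [hΦx] at hlim
    exact hlim

end Pool.Agent.H804R4
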