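import Mathlib
import Pool.Agent.H804R4.Core2

set_option autoImplicit false
open scoped Topology
open Filter Set Metric

namespace Pool.Agent.H804R4

variable {E F : Type*} [NormedAddCommGroup E] [NormedSpace ℂ E] [FiniteDimensional ℂ E]
  [NormedAddCommGroup F] [NormedSpace ℂ F] [FiniteDimensional ℂ F]

/-- the kernel field has a continuous local frame at `ξ`. -/
def NonSing (Ω : Set E) (Γ : E → F) (k d : ℕ) (ξ : E) : Prop :=
  ∃ U : Set E, IsOpen U ∧ ξ ∈ U ∧ U ⊆ Ω ∧
    ∃ v : Fin d → E → E, (∀ i, ContinuousOn (v i) U) ∧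
      (∀ η ∈ U, LinearIndependent ℂ (fun i => v i η)) ∧
      (∀ η ∈ U, rk (fderiv ℂ Γ η) = k →
        Submodule.span ℂ (Set.range (fun i => v i η)) = LinearMap.ker (fderiv ℂ Γ η : E →ₗ[ℂ] F))

variable {W V : Type*} [NormedAddCommGroup W] [NormedSpace ℂ W] [FiniteDimensional ℂ W]
  [NormedAddCommGroup V] [NormedSpace ℂ V] [FiniteDimensional ℂ V]

omit [FiniteDimensional ℂ E] [FiniteDimensional ℂ F] [FiniteDimensional ℂ W]
  [FiniteDimensional ℂ V] in
theorem rk_comp_equiv (T : E →L[ℂ] F) (Φ : (W × V) ≃L[ℂ] E) :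
    rk (T ∘L (Φ : W × V →L[ℂ] E)) = rk T := by
  have hr : LinearMap.range ((T ∘L (Φ : W × V →L[ℂ] E) : W × V →L[ℂ] F) : W × V →ₗ[ℂ] F) =
      LinearMap.range (T : E →ₗ[ℂ] F) := by
    apply le_antisymm
    · rintro _ ⟨z, rfl⟩
      exact ⟨Φ z, rfl⟩
    · rintro _ ⟨z, rfl⟩
      refine ⟨Φ.symm z, ?_⟩
      change T (Φ (Φ.symm z)) = T z
      rw [Φ.apply_symm_apply]
  unfold rk
  rw [hr]

omit [FiniteDimensional ℂ E] [FiniteDimensional ℂ F] [FiniteDimensional ℂ W]
  [FiniteDimensional ℂ V] in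
theorem fderiv_G {Γ : E → F} {Φ : (W × V) ≃L[ℂ] E} {η : E} {p : W × V}
    (hd : DifferentiableAt ℂ Γ (η + Φ p)) :
    fderiv ℂ (fun p => Γ (η + Φ p)) p = (fderiv ℂ Γ (η + Φ p)) ∘L (Φ : W × V →L[ℂ] E) := by
  have h1 : HasFDerivAt (fun p : W × V => η + Φ p) (Φ : W × V →L[ℂ] E) p :=
    (Φ.hasFDerivAt).const_add η
  exact (hd.hasFDerivAt.comp p h1).fderiv

omit [FiniteDimensional ℂ E] [FiniteDimensional ℂ F] [FiniteDimensional ℂ W]
  [FiniteDimensional ℂ V] in
theorem hyp_transport {Ω : Set E} {Γ : E → F} {k : ℕ} (h : Hyp Ω Γ k) (Φ : (W × V) ≃L[ℂ] E)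
    (η : E) (hW : Module.finrank ℂ W = k) :
    Hyp {p : W × V | η + Φ p ∈ Ω} (fun p => Γ (η + Φ p)) (Module.finrank ℂ W) := by
  have hc : Continuous (fun p : W × V => η + Φ p) := by fun_prop
  refine ⟨h.isOpen.preimage hc, ?_, ?_, ?_⟩
  · intro p hp
    have h1 : AnalyticAt ℂ (fun p : W × V => η + Φ p) p :=
      analyticAt_const.fun_add ((Φ : W × V →L[ℂ] E).analyticAt p)
    exact AnalyticAt.comp (g := Γ) (f := fun p : W × V => η + Φ p) (h.an _ hp) h1
  · intro p hp
    rw [fderiv_G (h.an _ hp).differentiableAt, rk_comp_equiv, hW]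
    exact h.le _ hp
  · intro p hp hr q hq
    rw [fderiv_G (h.an _ hp).differentiableAt, rk_comp_equiv, hW] at hr
    rw [fderiv_G (h.an _ hp).differentiableAt]
    have := h.lev _ hp hr _ hq
    rw [this]
    have e1 : η + Φ q - (η + Φ p) = Φ (q - p) := by rw [map_sub]; abel
    rw [e1]
    rfl

/-- local graph representation of a continuous frame. -/
theorem exists_graph {W' V' : Submodule ℂ E} {d : ℕ} (Φ : (W' × V') ≃L[ℂ] E)
    (hΦ : ∀ p, Φ p = (p.1 : E) + (p.2 : E)) {U : Set E} (hU : IsOpen U) {η : E} (hη : η ∈ U)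
    (v : Fin d → E → E) (hv : ∀ i, ContinuousOn (v i) U)
    (b : Module.Basis (Fin d) ℂ V') (hb : ∀ i, (b i : E) = v i η) :
    ∃ (N : Set E) (L : E → (V' →L[ℂ] W')), IsOpen N ∧ η ∈ N ∧ N ⊆ U ∧ ContinuousOn L N ∧ L η = 0 ∧
      ∀ x ∈ N, ∀ s : V', Φ (L x s, s) ∈ Submodule.span ℂ (Set.range (fun i => v i x)) := by
  have := FiniteDimensional.complete ℂ V'
  set S : E → (V' →L[ℂ] E) := fun x => ∑ i, ContinuousLinearMap.smulRight
    (LinearMap.toContinuousLinearMap (b.coord i)) (v i x) with hS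
  have hSapp : ∀ x s, S x s = ∑ i, (b.coord i s) • v i x := by
    intro x s
    simp [hS]
  have hScont : ContinuousOn S U := by
    refine continuousOn_finsetSum _ (fun i _ => ?_)
    have h1 : Continuous (fun y : E => ContinuousLinearMap.smulRight
        (LinearMap.toContinuousLinearMap (b.coord i)) y) :=
      (ContinuousLinearMap.smulRightL ℂ V' E
        (LinearMap.toContinuousLinearMap (b.coord i))).continuous
    exact h1.comp_continuousOn (hv i)
  set A : E → (V' →L[ℂ] V') := fun x => (ContinuousLinearMap.snd ℂ W' V') ∘L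
    ((Φ.symm : E →L[ℂ] W' × V') ∘L S x) with hA
  set C : E → (V' →L[ℂ] W') := fun x => (ContinuousLinearMap.fst ℂ W' V') ∘L
    ((Φ.symm : E →L[ℂ] W' × V') ∘L S x) with hC
  have hAc : ContinuousOn A U := by
    have h1 : Continuous (fun T : V' →L[ℂ] E => (ContinuousLinearMap.snd ℂ W' V') ∘L
      ((Φ.symm : E →L[ℂ] W' × V') ∘L T)) := by
      exact (ContinuousLinearMap.compL ℂ V' (W' × V') V' _).continuous.comp
        (ContinuousLinearMap.compL ℂ V' E (W' × V') _).continuous
    exact h1.comp_continuousOn hScont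
  have hCc : ContinuousOn C U := by
    have h1 : Continuous (fun T : V' →L[ℂ] E => (ContinuousLinearMap.fst ℂ W' V') ∘L
      ((Φ.symm : E →L[ℂ] W' × V') ∘L T)) := by
      exact (ContinuousLinearMap.compL ℂ V' (W' × V') W' _).continuous.comp
        (ContinuousLinearMap.compL ℂ V' E (W' × V') _).continuous
    exact h1.comp_continuousOn hScont
  have hSη : ∀ s : V', S η s = (s : E) := by
    intro s
    rw [hSapp]
    have h1 := congrArg (Submodule.subtype V') (b.sum_repr s)
    rw [map_sum] at h1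
    simp only [map_smul, Submodule.subtype_apply, hb] at h1
    simpa using h1
  have hsymm : ∀ s : V', Φ.symm (s : E) = (0, s) := by
    intro s
    rw [ContinuousLinearEquiv.symm_apply_eq, hΦ]
    simp
  have hAη : A η = 1 := by
    ext s
    change ((Φ.symm (S η s)).2 : E) = s
    rw [hSη, hsymm]
  have hCη : C η = 0 := by
    ext s
    change ((Φ.symm (S η s)).1 : E) = 0
    rw [hSη, hsymm]
    rfl
  refine ⟨U ∩ A ⁻¹' {x | IsUnit x}, fun x => (C x) ∘L (Ring.inverse (A x)),
    hAc.isOpen_inter_preimage hU (Units.isOpen (R := V' →L[ℂ] V')), ⟨hη, ?_⟩, inter_subset_left, ?_, ?_, ?_⟩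
  · change IsUnit (A η)
    rw [hAη]; exact isUnit_one
  · have h1 : ContinuousOn (fun x => Ring.inverse (A x)) (U ∩ A ⁻¹' {x | IsUnit x}) := by
      intro x hx
      obtain ⟨hxU, hxu⟩ := hx
      obtain ⟨u, hu⟩ := (show IsUnit (A x) from hxu)
      have h2 : ContinuousAt Ring.inverse (A x) := by
        rw [← hu]; exact NormedRing.inverse_continuousAt (R := V' →L[ℂ] V') u
      exact (ContinuousAt.comp_continuousWithinAt (g := Ring.inverse) (f := A) h2
        (hAc x hxU)).mono inter_subset_left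
    exact (hCc.mono inter_subset_left).clm_comp h1
  · simp only [hCη, ContinuousLinearMap.zero_comp]
  · intro x hx s
    obtain ⟨hxU, hxu⟩ := hx
    have hu : IsUnit (A x) := hxu
    set c : V' := Ring.inverse (A x) s with hc
    have h1 : A x c = s := by
      rw [hc, ← mul_apply_eq_comp, Ring.mul_inverse_cancel _ hu]; rfl
    have h2 : Φ.symm (S x c) = (C x c, s) := by
      refine Prod.ext rfl ?_
      exact h1
    have h3 : Φ (C x c, s) = S x c := by rw [← h2, Φ.apply_symm_apply]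
    change Φ (C x c, s) ∈ _
    rw [h3, hSapp]
    refine Submodule.sum_mem _ (fun i _ => Submodule.smul_mem _ _ (Submodule.subset_span ⟨i, rfl⟩))

end Pool.Agent.H804R4
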