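import Mathlib
import Pool.Agent.H804R4.Transfer

set_option autoImplicit false
open scoped Topology
open Filter Set Metric

namespace Pool.Agent.H804R4

variable {E F : Type*} [NormedAddCommGroup E] [NormedSpace ℂ E] [FiniteDimensional ℂ E]
  [NormedAddCommGroup F] [NormedSpace ℂ F] [FiniteDimensional ℂ F]

omit [FiniteDimensional ℂ E] [FiniteDimensional ℂ F] in
theorem tendsto_clm {T : ℕ → (E →L[ℂ] F)} {T₀ : E →L[ℂ] F} {s : ℕ → E} {s₀ : E}
    (hT : Tendsto T atTop (𝓝 T₀)) (hs : Tendsto s atTop (𝓝 s₀)) :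
    Tendsto (fun j => T j (s j)) atTop (𝓝 (T₀ s₀)) :=
  ((isBoundedBilinearMap_apply (𝕜 := ℂ) (E := E) (F := F)).continuous.tendsto (T₀, s₀)).comp
    (hT.prodMk_nhds hs)

theorem transfer {Ω : Set E} {Γ : E → F} {k d : ℕ} (h : Hyp Ω Γ k)
    (hd : Module.finrank ℂ E = k + d) {η ξ : E} (hη : NonSing Ω Γ k d η) (hξ : ξ ∈ Ω)
    (x u : ℕ → E) (hx : ∀ j, x j ∈ Ω) (hxr : ∀ j, rk (fderiv ℂ Γ (x j)) = k)
    (hu : ∀ j, fderiv ℂ Γ (x j) (u j) = 0) (hxl : Tendsto x atTop (𝓝 ξ)) {u₀ : E}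
    (hul : Tendsto u atTop (𝓝 u₀)) (c : ℂ) (hc : η = ξ + c • u₀) : NonSing Ω Γ k d ξ := by
  obtain ⟨U, hU, hηU, hUΩ, v, hv, hli, hspan⟩ := hη
  set V' : Submodule ℂ E := Submodule.span ℂ (Set.range (fun i => v i η)) with hV'
  let b : Module.Basis (Fin d) ℂ V' := Module.Basis.span (hli η hηU)
  have hb : ∀ i, (b i : E) = v i η := fun i =>
    congrArg Subtype.val (Module.Basis.span_apply (hli η hηU) i)
  obtain ⟨W', hcompl⟩ := Submodule.exists_isCompl V'
  let Φ : (W' × V') ≃L[ℂ] E :=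
    (Submodule.prodEquivOfIsCompl W' V' hcompl.symm).toContinuousLinearEquiv
  have hΦ : ∀ p, Φ p = (p.1 : E) + (p.2 : E) := fun p => rfl
  have hdV : Module.finrank ℂ V' = d := by
    have := finrank_span_eq_card (hli η hηU)
    simpa using this
  have hdW : Module.finrank ℂ W' = k := by
    have := Submodule.finrank_add_eq_of_isCompl hcompl
    omega
  obtain ⟨N, L, hN, hηN, hNU, hLc, hLη, hLspan⟩ := exists_graph Φ hΦ hU hηU v hv b hb
  have hNΩ : N ⊆ Ω := hNU.trans hUΩ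
  have hker : ∀ y ∈ N, rk (fderiv ℂ Γ y) = k → ∀ s : V', fderiv ℂ Γ y (Φ (L y s, s)) = 0 := by
    intro y hy hr s
    have h1 := hLspan y hy s
    rw [hspan y (hNU hy) hr] at h1
    exact h1
  have hG := hyp_transport h Φ η hdW
  have hLηc : Tendsto L (𝓝 η) (𝓝 0) := by
    have := (hLc.continuousAt (hN.mem_nhds hηN))
    rw [ContinuousAt, hLη] at this
    exact this
  -- the radius
  have hι : Continuous (fun t : W' => η + Φ (t, 0)) := by fun_prop
  obtain ⟨δ, hδ, hδN⟩ : ∃ δ > 0, ∀ t ∈ ball (0 : W') δ, η + Φ (t, 0) ∈ N := by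
    have h1 : ∀ᶠ t : W' in 𝓝 0, η + Φ (t, 0) ∈ N := by
      have h2 := hι.tendsto 0
      have h3 : η + Φ ((0 : W'), (0 : V')) = η := by simp [hΦ]
      rw [h3] at h2
      exact h2.eventually (hN.mem_nhds hηN)
    obtain ⟨δ, hδ, hb⟩ := Metric.eventually_nhds_iff.1 h1
    exact ⟨δ, hδ, fun t ht => hb ht⟩
  -- the sequences
  set y : ℕ → E := fun j => x j + c • u j with hy
  have hyl : Tendsto y atTop (𝓝 η) := by
    rw [hc]
    exact hxl.add (hul.const_smul c)
  have hyN : ∀ᶠ j in atTop, y j ∈ N := hyl.eventually (hN.mem_nhds hηN)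
  have hyfib : ∀ j, y j ∈ N → rk (fderiv ℂ Γ (y j)) = k ∧ fderiv ℂ Γ (y j) (u j) = 0 := by
    intro j hj
    have h1 := fibre h (hx j) (hxr j) (hNΩ hj) (by
      have : y j - x j = c • u j := by simp [hy]
      rw [this, map_smul, hu j, smul_zero])
    exact ⟨h1.1, (h1.2 _).2 (hu j)⟩
  have hLy : Tendsto (fun j => L (y j)) atTop (𝓝 0) := hLηc.comp hyl
  -- the direction lies in `V'`
  have hp1 : (Φ.symm u₀).1 = 0 := by
    have h1 : Tendsto (fun j => (Φ.symm (u j)).1) atTop (𝓝 (Φ.symm u₀).1) :=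
      (continuous_fst.comp Φ.symm.continuous).continuousAt.tendsto.comp hul
    have h2 : Tendsto (fun j => L (y j) (Φ.symm (u j)).2) atTop (𝓝 ((0 : V' →L[ℂ] W')
        (Φ.symm u₀).2)) :=
      tendsto_clm hLy ((continuous_snd.comp Φ.symm.continuous).continuousAt.tendsto.comp hul)
    have h3 : (fun j => (Φ.symm (u j)).1) =ᶠ[atTop] (fun j => L (y j) (Φ.symm (u j)).2) := by
      filter_upwards [hyN] with j hj
      obtain ⟨h4, h5⟩ := hyfib j hj
      refine ker_eq_graph ((fderiv ℂ Γ (y j)) ∘L (Φ : W' × V' →L[ℂ] E))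
        (by rw [rk_comp_equiv, hdW, h4]) (L (y j)) (fun s => hker _ hj h4 s) (Φ.symm (u j)) ?_
      change fderiv ℂ Γ (y j) (Φ (Φ.symm (u j))) = 0
      rw [Φ.apply_symm_apply]; exact h5
    have h6 := tendsto_nhds_unique h1 (h2.congr' h3.symm)
    simpa using h6
  -- a generic point in the slice
  have hgen : ∃ t ∈ ball (0 : W') δ,
      rk (fderiv ℂ (fun p => Γ (η + Φ p)) (t, 0)) = Module.finrank ℂ W' := by
    set t : ℕ → W' := fun j => (Φ.symm (y j - η)).1 - L (y j) (Φ.symm (y j - η)).2 with ht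
    have hq : Tendsto (fun j => Φ.symm (y j - η)) atTop (𝓝 0) := by
      have h1 : Tendsto (fun j => y j - η) atTop (𝓝 (η - η)) := hyl.sub_const η
      rw [sub_self] at h1
      have h2 := Φ.symm.continuous.tendsto (0 : E)
      rw [map_zero] at h2
      exact h2.comp h1
    have htl : Tendsto t atTop (𝓝 0) := by
      have h1 : Tendsto (fun j => (Φ.symm (y j - η)).1) atTop (𝓝 0) :=
        (continuous_fst.tendsto (0 : W' × V')).comp hq
      have h2 : Tendsto (fun j => (Φ.symm (y j - η)).2) atTop (𝓝 0) :=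
        (continuous_snd.tendsto (0 : W' × V')).comp hq
      have h3 := h1.sub (tendsto_clm hLy h2)
      have h4 : (0 : W') - (0 : V' →L[ℂ] W') 0 = 0 := by simp
      rw [h4] at h3
      exact h3
    have hev : ∀ᶠ j in atTop, t j ∈ ball (0 : W') δ := htl.eventually (ball_mem_nhds _ hδ)
    obtain ⟨j, hj1, hj2⟩ := (hev.and hyN).exists
    refine ⟨t j, hj1, ?_⟩
    obtain ⟨h4, _⟩ := hyfib j hj2
    have hz : η + Φ (t j, 0) ∈ Ω := hNΩ (hδN _ hj1)
    rw [fderiv_G (h.an _ hz).differentiableAt, rk_comp_equiv, hdW]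
    refine (fibre h (hNΩ hj2) h4 hz ?_).1
    have e1 : Φ (t j, 0) = (y j - η) - Φ (L (y j) (Φ.symm (y j - η)).2, (Φ.symm (y j - η)).2) := by
      have e2 : y j - η = Φ (Φ.symm (y j - η)) := (Φ.apply_symm_apply _).symm
      nth_rewrite 1 [e2]
      rw [← map_sub]
      congr 1
      refine Prod.ext ?_ ?_
      · simp [ht]
      · simp
    have e3 : η + Φ (t j, 0) - y j = -Φ (L (y j) (Φ.symm (y j - η)).2, (Φ.symm (y j - η)).2) := by
      rw [e1]; abel
    rw [e3, map_neg, hker _ hj2 h4, neg_zero]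
  -- apply the core lemma
  set s₀ : V' := -(c • (Φ.symm u₀).2) with hs₀
  have hΦs : Φ (0, s₀) = -(c • u₀) := by
    have e1 : ((0 : W'), s₀) = -(c • Φ.symm u₀) := by
      refine Prod.ext ?_ ?_
      · simp [hp1]
      · simp [hs₀]
    rw [e1, map_neg, map_smul, Φ.apply_symm_apply]
  have hL0 : (fun t : W' => L (η + Φ (t, 0))) 0 = 0 := by
    have h3 : η + Φ ((0 : W'), (0 : V')) = η := by simp [hΦ]
    simp only [h3, hLη]
  have hpt : ((fun t : W' => L (η + Φ (t, 0))) 0 s₀, s₀) = ((0 : W'), s₀) := by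
    rw [hL0]; rfl
  obtain ⟨U', hU'o, hmem, hsub, L', hL'c, hL'⟩ := core hG (L := fun t : W' => L (η + Φ (t, 0))) hδ
    (hLc.comp hι.continuousOn (fun t ht => hδN t ht))
    (fun t ht => hNΩ (hδN t ht))
    (by
      intro t ht hr s
      have hz : η + Φ (t, 0) ∈ Ω := hNΩ (hδN _ ht)
      rw [fderiv_G (h.an _ hz).differentiableAt, rk_comp_equiv, hdW] at hr
      rw [fderiv_G (h.an _ hz).differentiableAt]
      exact hker _ (hδN t ht) hr s)
    hgen s₀ (by
      rw [hpt]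
      change η + Φ (0, s₀) ∈ Ω
      rw [hΦs, hc]
      have : ξ + c • u₀ + -(c • u₀) = ξ := by abel
      rw [this]; exact hξ)
  rw [hpt] at hmem
  have hψ : Continuous (fun x : E => Φ.symm (x - η)) := by fun_prop
  refine ⟨(fun x : E => Φ.symm (x - η)) ⁻¹' U', hU'o.preimage hψ, ?_, ?_,
    fun i x => Φ (L' (Φ.symm (x - η)) (b i), b i), ?_, ?_, ?_⟩
  · change Φ.symm (ξ - η) ∈ U'
    have : Φ.symm (ξ - η) = (0, s₀) := by
      rw [ContinuousLinearEquiv.symm_apply_eq, hΦs, hc]; abel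
    rw [this]; exact hmem
  · intro z hz
    have h1 := hsub hz
    have h2 : η + Φ (Φ.symm (z - η)) ∈ Ω := h1
    rw [Φ.apply_symm_apply] at h2
    simpa using h2
  · intro i
    refine Φ.continuous.comp_continuousOn ?_
    refine ContinuousOn.prodMk ?_ continuousOn_const
    refine ContinuousOn.clm_apply ?_ continuousOn_const
    exact hL'c.comp hψ.continuousOn (fun z hz => hz)
  · intro z hz
    refine LinearIndependent.of_comp ((LinearMap.snd ℂ W' V') ∘ₗ
      (Φ.symm.toLinearEquiv : E →ₗ[ℂ] W' × V')) ?_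
    have : (((LinearMap.snd ℂ W' V') ∘ₗ (Φ.symm.toLinearEquiv : E →ₗ[ℂ] W' × V')) ∘
        (fun i => Φ (L' (Φ.symm (z - η)) (b i), b i))) = b := by
      funext i
      change (Φ.symm (Φ (L' (Φ.symm (z - η)) (b i), b i))).2 = b i
      rw [Φ.symm_apply_apply]
    rw [this]
    exact b.linearIndependent
  · intro z hz hr
    have hzΩ : z ∈ Ω := by
      have h1 := hsub hz
      have h2 : η + Φ (Φ.symm (z - η)) ∈ Ω := h1
      rw [Φ.apply_symm_apply] at h2
      simpa using h2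
    have hzk : ∀ s : V', fderiv ℂ Γ z (Φ (L' (Φ.symm (z - η)) s, s)) = 0 := by
      intro s
      have h1 := hL' _ hz s
      have h3 : η + Φ (Φ.symm (z - η)) = z := by rw [Φ.apply_symm_apply]; abel
      have h2 : DifferentiableAt ℂ Γ (η + Φ (Φ.symm (z - η))) := by
        rw [h3]; exact (h.an _ hzΩ).differentiableAt
      rw [fderiv_G h2, h3] at h1
      exact h1
    have hLI : LinearIndependent ℂ (fun i => Φ (L' (Φ.symm (z - η)) (b i), b i)) := by
      refine LinearIndependent.of_comp ((LinearMap.snd ℂ W' V') ∘ₗ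
        (Φ.symm.toLinearEquiv : E →ₗ[ℂ] W' × V')) ?_
      have : (((LinearMap.snd ℂ W' V') ∘ₗ (Φ.symm.toLinearEquiv : E →ₗ[ℂ] W' × V')) ∘
          (fun i => Φ (L' (Φ.symm (z - η)) (b i), b i))) = b := by
        funext i
        change (Φ.symm (Φ (L' (Φ.symm (z - η)) (b i), b i))).2 = b i
        rw [Φ.symm_apply_apply]
      rw [this]
      exact b.linearIndependent
    refine Submodule.eq_of_le_of_finrank_eq ?_ ?_
    · rw [Submodule.span_le]
      rintro _ ⟨i, rfl⟩
      exact hzk (b i)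
    · rw [finrank_span_eq_card hLI]
      have e1 := rk_add_kd (fderiv ℂ Γ z)
      unfold kd at e1
      simp only [Fintype.card_fin]
      omega

end Pool.Agent.H804R4
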