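import Mathlib
import Pool.Agent.H804R4.Transfer2

set_option autoImplicit false
open scoped Topology
open Filter Set Metric

namespace Pool.Agent.H804R4

variable {E F : Type*} [NormedAddCommGroup E] [NormedSpace ℂ E] [FiniteDimensional ℂ E]
  [NormedAddCommGroup F] [NormedSpace ℂ F] [FiniteDimensional ℂ F]

theorem lev_of_affine {Ω : Set E} (hΩ : IsOpen Ω) {Γ : E → F} {k d : ℕ}
    (hd : Module.finrank ℂ E = k + d) {x : E} (hx : x ∈ Ω) (hdiff : DifferentiableAt ℂ Γ x)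
    (hr : rk (fderiv ℂ Γ x) = k) (V : Submodule ℂ E) (hV : Module.finrank ℂ V = d)
    (hset : {η | η ∈ Ω ∧ Γ η = Γ x} = {η | η ∈ Ω ∧ η - x ∈ V}) :
    ∀ y ∈ Ω, (Γ y = Γ x ↔ fderiv ℂ Γ x (y - x) = 0) := by
  have hle : V ≤ LinearMap.ker (fderiv ℂ Γ x : E →ₗ[ℂ] F) := by
    intro v hv
    have hl : HasDerivAt (fun t : ℂ => x + t • v) v 0 := by
      have h1 : HasDerivAt (fun t : ℂ => t • v) ((1 : ℂ) • v) 0 :=
        (hasDerivAt_id (0 : ℂ)).smul_const v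
      rw [one_smul] at h1
      exact h1.const_add x
    have h0 : x + (0 : ℂ) • v = x := by simp
    have hd1 : HasDerivAt (fun t : ℂ => Γ (x + t • v)) (fderiv ℂ Γ x v) 0 := by
      have h2 : HasFDerivAt Γ (fderiv ℂ Γ x) (x + (0 : ℂ) • v) := by
        rw [h0]; exact hdiff.hasFDerivAt
      exact h2.comp_hasDerivAt 0 hl
    have hd2 : HasDerivAt (fun t : ℂ => Γ (x + t • v)) 0 0 := by
      refine (hasDerivAt_const (0 : ℂ) (Γ x)).congr_of_eventuallyEq ?_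
      have hc : Tendsto (fun t : ℂ => x + t • v) (𝓝 0) (𝓝 x) := by
        have := hl.continuousAt.tendsto
        rwa [h0] at this
      filter_upwards [hc.eventually (hΩ.mem_nhds hx)] with t ht
      have h3 : x + t • v ∈ {η | η ∈ Ω ∧ η - x ∈ V} :=
        ⟨ht, by simpa using V.smul_mem t hv⟩
      rw [← hset] at h3
      exact h3.2
    exact hd1.unique hd2
  have heq : V = LinearMap.ker (fderiv ℂ Γ x : E →ₗ[ℂ] F) := by
    refine Submodule.eq_of_le_of_finrank_eq hle ?_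
    have h1 := rk_add_kd (fderiv ℂ Γ x)
    unfold kd at h1
    omega
  intro y hy
  constructor
  · intro hyx
    have h1 : y ∈ {η | η ∈ Ω ∧ Γ η = Γ x} := ⟨hy, hyx⟩
    rw [hset, heq] at h1
    exact h1.2
  · intro hyx
    have h1 : y ∈ {η | η ∈ Ω ∧ η - x ∈ V} := by
      rw [heq]; exact ⟨hy, hyx⟩
    rw [← hset] at h1
    exact h1.2

/-- The abstract theorem: through each singular point of the kernel field passes an affine line
all of whose points in `Ω` are singular. -/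
theorem main {Ω : Set E} {Γ : E → F} {k d : ℕ} (h : Hyp Ω Γ k) (hconn : IsPreconnected Ω)
    (hd : Module.finrank ℂ E = k + d) (hdpos : 0 < d)
    (hex : ∃ x ∈ Ω, rk (fderiv ℂ Γ x) = k) {ξ : E} (hξ : ξ ∈ Ω) (hsing : ¬ NonSing Ω Γ k d ξ) :
    ∃ V : Submodule ℂ E, V ≠ ⊥ ∧ ∀ η ∈ Ω, η - ξ ∈ V → ¬ NonSing Ω Γ k d η := by
  have := FiniteDimensional.proper ℂ E
  obtain ⟨x₁, hx₁, hr₁⟩ := hex
  obtain ⟨μ, hμan, hμ1, hμ⟩ := exists_detector h hr₁
  have hfreq : ∃ᶠ x in 𝓝 ξ, x ∈ Ω ∧ rk (fderiv ℂ Γ x) = k := by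
    have h1 : ∃ᶠ x in 𝓝 ξ, μ x ≠ 0 := by
      by_contra hcon
      rw [not_frequently] at hcon
      have hz : ∀ᶠ x in 𝓝 ξ, μ x = 0 := hcon.mono fun t' ht' => not_not.1 ht'
      have := hμan.eqOn_zero_of_preconnected_of_eventuallyEq_zero hconn hξ hz
      exact hμ1 (this hx₁)
    refine (h1.and_eventually (h.isOpen.mem_nhds hξ)).mono ?_
    rintro x ⟨h2, h3⟩
    exact ⟨h3, hμ x h3 h2⟩
  obtain ⟨x, hx, hxl⟩ := mem_closure_iff_seq_limit.1 (mem_closure_iff_frequently.2 hfreq)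
  have hvec : ∀ j, ∃ u : E, fderiv ℂ Γ (x j) u = 0 ∧ u ∈ sphere (0 : E) 1 := by
    intro j
    have h1 := rk_add_kd (fderiv ℂ Γ (x j))
    have h2 : rk (fderiv ℂ Γ (x j)) = k := (hx j).2
    have h3 : 0 < Module.finrank ℂ (LinearMap.ker (fderiv ℂ Γ (x j) : E →ₗ[ℂ] F)) := by
      unfold kd at h1; omega
    have h4 : LinearMap.ker (fderiv ℂ Γ (x j) : E →ₗ[ℂ] F) ≠ ⊥ := by
      intro h5
      rw [h5, finrank_bot] at h3
      exact lt_irrefl _ h3
    obtain ⟨v, hv, hv0⟩ := Submodule.exists_mem_ne_zero_of_ne_bot h4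
    have hv' : fderiv ℂ Γ (x j) v = 0 := hv
    refine ⟨((‖v‖⁻¹ : ℝ) : ℂ) • v, by rw [map_smul, hv', smul_zero], ?_⟩
    rw [mem_sphere_zero_iff_norm, norm_smul, Complex.norm_real, norm_inv, norm_norm]
    exact inv_mul_cancel₀ (norm_ne_zero_iff.2 hv0)
  choose u hu1 hu2 using hvec
  obtain ⟨u₀, hu₀, φ, hφ, hul⟩ := (isCompact_sphere (0 : E) 1).tendsto_subseq hu2
  have hu₀0 : u₀ ≠ 0 := by
    intro h0
    rw [mem_sphere_zero_iff_norm, h0, norm_zero] at hu₀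
    exact zero_ne_one hu₀
  refine ⟨Submodule.span ℂ {u₀}, ?_, ?_⟩
  · rw [Ne, Submodule.span_singleton_eq_bot]
    exact hu₀0
  · intro η hη hηV hns
    obtain ⟨c, hc⟩ := Submodule.mem_span_singleton.1 hηV
    apply hsing
    refine transfer h hd hns hξ (x ∘ φ) (u ∘ φ) (fun j => (hx _).1) (fun j => (hx _).2)
      (fun j => hu1 _) (hxl.comp hφ.tendsto_atTop) hul c ?_
    rw [hc]; abel

end Pool.Agent.H804R4
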